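import Pool.Agent.ACK.StmtsD

set_option autoImplicit false

namespace Pool.Agent.ACK.H19

open Pool.Agent.ACK Pool.Agent.ACK.D

theorem gw_perm {l l' : List ℕ} (h : l.Perm l') : Gw l ↔ Gw l' := by
  constructor
  · intro H x hx
    rw [← h.count_eq]
    exact H x (h.mem_iff.mpr hx)
  · intro H x hx
    rw [h.count_eq]
    exact H x (h.mem_iff.mp hx)

theorem count_map {l : List ℕ} {f : ℕ → ℕ} (hf : Set.InjOn f {x | x ∈ l}) {y : ℕ} (hy : y ∈ l) :
    (l.map f).count (f y) = l.count y := by
  rw [List.count, List.count, List.countP_map]
  refine List.countP_congr fun x hx => ?_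
  simp only [Function.comp, beq_iff_eq]
  constructor
  · intro h
    exact hf hx hy h
  · intro h
    rw [h]

theorem gwm : GwmStmt := by
  intro l l' h
  cases h with
  | ren l f hf =>
    constructor
    · intro H y hy
      obtain ⟨x, hx, rfl⟩ := List.mem_map.mp hy
      rw [count_map hf hx]
      exact H x hx
    · intro H x hx
      rw [← count_map hf hx]
      exact H (f x) (List.mem_map.mpr ⟨x, hx, rfl⟩)
  | rot a b => exact gw_perm List.perm_append_comm
  | rev l => exact gw_perm (List.reverse_perm _).symm
  | fl1 x U A V B _ =>
    refine gw_perm (List.perm_iff_count.mpr fun y => ?_)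
    simp only [List.count_append, List.count_cons]
    omega
  | fl2 x U A V B _ =>
    refine gw_perm (List.perm_iff_count.mpr fun y => ?_)
    simp only [List.count_append, List.count_cons]
    omega
  | fl3 x U A V B _ =>
    refine gw_perm (List.perm_iff_count.mpr fun y => ?_)
    simp only [List.count_append, List.count_cons]
    omega

end Pool.Agent.ACK.H19
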